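import Pool.Agent.Helper57.ZF.Goals

/-!
# Near-extremal sub-configurations
-/

namespace Pool.Agent.Helper58.ZF

open Pool.Agent.Helper57.ZF

theorem cnt_mono {β : Type} {F F' : Finset β} (h : F' ⊆ F) (q : β → Prop) :
    cnt F' q ≤ cnt F q := by
  classical
  rw [cnt_eq, cnt_eq]
  exact Finset.card_le_card (Finset.filter_subset_filter _ h)

theorem lin_mono {α β : Type} {P P' : Finset α} {F F' : Finset β} {R : α → β → Prop}
    (hP : P' ⊆ P) (hF : F' ⊆ F) (h : Lin P F R) : Lin P' F' R :=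
  fun p hp q hq hpq => (cnt_mono hF _).trans (h p (hP hp) q (hP hq) hpq)

/-- the key numerical step -/
theorem num (M n m I : ℝ) (hM : 2 ≤ M) (hn : 0 < n) (hI : 0 < I)
    (h1 : M * (n * m) ^ (2 / 3 : ℝ) < I) (h2 : I ≤ m ^ 2 + n) (h3 : M * n < I) (hm : 0 < m) :
    M * n ≤ I / Real.sqrt (M - 1) := by
  have hM1 : 0 < M - 1 := by linarith
  have hnm : 0 < n * m := mul_pos hn hm
  -- `I ^ 3 > M ^ 3 (n m) ^ 2`
  have e1 : ((n * m) ^ (2 / 3 : ℝ)) ^ 3 = (n * m) ^ 2 := by
    rw [← Real.rpow_natCast, ← Real.rpow_mul hnm.le]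
    norm_num
  have e2 : M ^ 3 * (n * m) ^ 2 < I ^ 3 := by
    have : (M * (n * m) ^ (2 / 3 : ℝ)) ^ 3 < I ^ 3 :=
      pow_lt_pow_left₀ h1 (by positivity) (by norm_num)
    rw [mul_pow, e1] at this
    exact this
  have e3 : (M - 1) * I ≤ M * m ^ 2 := by nlinarith
  have e4 : M ^ 2 * (M - 1) * n ^ 2 * I ≤ M ^ 3 * (n * m) ^ 2 := by
    have : M ^ 2 * n ^ 2 * ((M - 1) * I) ≤ M ^ 2 * n ^ 2 * (M * m ^ 2) :=
      mul_le_mul_of_nonneg_left e3 (by positivity)
    calc M ^ 2 * (M - 1) * n ^ 2 * I = M ^ 2 * n ^ 2 * ((M - 1) * I) := by ring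
      _ ≤ M ^ 2 * n ^ 2 * (M * m ^ 2) := this
      _ = M ^ 3 * (n * m) ^ 2 := by ring
  have e5 : M ^ 2 * (M - 1) * n ^ 2 < I ^ 2 := by
    by_contra hcon
    push Not at hcon
    have : I ^ 2 * I ≤ M ^ 2 * (M - 1) * n ^ 2 * I := mul_le_mul_of_nonneg_right hcon hI.le
    nlinarith
  rw [le_div_iff₀ (Real.sqrt_pos.2 hM1)]
  apply le_of_lt
  apply lt_of_pow_lt_pow_left₀ 2 hI.le
  rw [mul_pow, Real.sq_sqrt hM1.le]
  calc (M * n) ^ 2 * (M - 1) = M ^ 2 * (M - 1) * n ^ 2 := by ring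
    _ < I ^ 2 := e5

theorem inc_eq_zero_left {α β : Type} (P : Finset α) (F : Finset β) (R : α → β → Prop)
    (h : P.card = 0) : inc P F R = 0 := by
  rw [Finset.card_eq_zero] at h
  subst h
  simp [inc]

theorem inc_eq_zero_right {α β : Type} (P : Finset α) (F : Finset β) (R : α → β → Prop)
    (h : F.card = 0) : inc P F R = 0 := by
  classical
  rw [Finset.card_eq_zero] at h
  subst h
  unfold inc
  apply Finset.sum_eq_zero
  intro p _
  rw [cnt_eq]
  simp

theorem EXT (hT : G_TRIV) : G_EXT := by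
  classical
  intro ε hε
  refine ⟨max 2 ((2 / ε) ^ 2 + 1), fun M hM α β P F R hLin hbig => ?_⟩
  have hM2 : 2 ≤ M := (le_max_left _ _).trans hM
  have hM3 : (2 / ε) ^ 2 + 1 ≤ M := (le_max_right _ _).trans hM
  have hM1 : 0 < M - 1 := by linarith
  have hsq : 2 / ε ≤ Real.sqrt (M - 1) := by
    apply Real.le_sqrt_of_sq_le
    linarith
  have hsqpos : 0 < Real.sqrt (M - 1) := Real.sqrt_pos.2 hM1
  -- the minimal pair
  set S : Finset (Finset α × Finset β) := (P.powerset ×ˢ F.powerset).filter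
    (fun x => M * bd x.1.card x.2.card < inc x.1 x.2 R) with hS
  have hne : S.Nonempty := by
    refine ⟨(P, F), ?_⟩
    rw [hS, Finset.mem_filter, Finset.mem_product]
    exact ⟨⟨Finset.mem_powerset.2 (Finset.Subset.refl _),
      Finset.mem_powerset.2 (Finset.Subset.refl _)⟩, hbig⟩
  obtain ⟨⟨P', F'⟩, hx, hmin⟩ := Finset.exists_min_image S (fun x => x.1.card + x.2.card) hne
  rw [hS, Finset.mem_filter, Finset.mem_product, Finset.mem_powerset, Finset.mem_powerset] at hx
  obtain ⟨⟨hPP, hFF⟩, hI⟩ := hx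
  simp only at hPP hFF hI hmin
  set n : ℝ := (P'.card : ℝ) with hn
  set m : ℝ := (F'.card : ℝ) with hm
  set I : ℝ := (inc P' F' R : ℝ) with hIdef
  have hn0 : 0 ≤ n := Nat.cast_nonneg _
  have hm0 : 0 ≤ m := Nat.cast_nonneg _
  have hbd : bd P'.card F'.card = (n * m) ^ (2 / 3 : ℝ) + n + m := rfl
  have hpw : 0 ≤ (n * m) ^ (2 / 3 : ℝ) := by positivity
  rw [hbd] at hI
  have hI0 : 0 < I := lt_of_le_of_lt (by positivity) hI
  have hnpos : 0 < n := by
    rcases Nat.eq_zero_or_pos P'.card with h0 | h0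
    · exfalso
      have := inc_eq_zero_left P' F' R h0
      rw [hIdef, this] at hI0
      simp at hI0
    · rw [hn]
      exact_mod_cast h0
  have hmpos : 0 < m := by
    rcases Nat.eq_zero_or_pos F'.card with h0 | h0
    · exfalso
      have := inc_eq_zero_right P' F' R h0
      rw [hIdef, this] at hI0
      simp at hI0
    · rw [hm]
      exact_mod_cast h0
  obtain ⟨t1, t2⟩ := hT α β P' F' R (lin_mono hPP hFF hLin)
  have t1' : I ≤ n ^ 2 + m := by rw [hIdef, hn, hm]; exact_mod_cast t1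
  have t2' : I ≤ m ^ 2 + n := by rw [hIdef, hn, hm]; exact_mod_cast t2
  have a1 : M * (n * m) ^ (2 / 3 : ℝ) < I := by nlinarith
  have a2 : M * n < I := by nlinarith
  have a3 : M * m < I := by nlinarith
  have b1 := num M n m I hM2 hnpos hI0 a1 t2' a2 hmpos
  have b2 := num M m n I hM2 hmpos hI0 (by rw [mul_comm m n]; exact a1) t1' a3 hnpos
  have b3 : I / Real.sqrt (M - 1) ≤ ε / 2 * I := by
    rw [div_le_iff₀ hsqpos]
    have : 1 ≤ ε / 2 * Real.sqrt (M - 1) := by
      rw [div_le_iff₀ hε] at hsq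
      linarith
    nlinarith
  refine ⟨P', hPP, F', hFF, hI, ?_, ?_⟩
  · intro P'' hP'' F'' hF''
    change (inc P'' F'' R : ℝ) ≤ I * ((((P''.card : ℝ) / n) * ((F''.card : ℝ) / m)) ^
      (2 / 3 : ℝ) + ε)
    set n' : ℝ := (P''.card : ℝ) with hn'
    set m' : ℝ := (F''.card : ℝ) with hm'
    have hn'0 : 0 ≤ n' := Nat.cast_nonneg _
    have hm'0 : 0 ≤ m' := Nat.cast_nonneg _
    have hcP : P''.card ≤ P'.card := Finset.card_le_card hP''
    have hcF : F''.card ≤ F'.card := Finset.card_le_card hF''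
    have hn'n : n' ≤ n := by rw [hn', hn]; exact_mod_cast hcP
    have hm'm : m' ≤ m := by rw [hm', hm]; exact_mod_cast hcF
    by_cases heq : P''.card = P'.card ∧ F''.card = F'.card
    · have hP3 : P'' = P' := Finset.eq_of_subset_of_card_le hP'' heq.1.ge
      have hF3 : F'' = F' := Finset.eq_of_subset_of_card_le hF'' heq.2.ge
      have e1 : n' / n = 1 := by rw [hn', hn, hP3]; exact div_self hnpos.ne'
      have e2 : m' / m = 1 := by rw [hm', hm, hF3]; exact div_self hmpos.ne'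
      rw [e1, e2, hP3, hF3]
      rw [mul_one, Real.one_rpow]
      nlinarith
    · have hlt : P''.card + F''.card < P'.card + F'.card := by
        by_contra hcon
        apply heq
        omega
      have hnot : ¬ (M * bd P''.card F''.card < inc P'' F'' R) := by
        intro hcon
        have hmem : (P'', F'') ∈ S := by
          rw [hS, Finset.mem_filter, Finset.mem_product, Finset.mem_powerset,
            Finset.mem_powerset]
          exact ⟨⟨hP''.trans hPP, hF''.trans hFF⟩, hcon⟩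
        have := hmin _ hmem
        simp only at this
        omega
      push Not at hnot
      have hbd' : bd P''.card F''.card = (n' * m') ^ (2 / 3 : ℝ) + n' + m' := rfl
      rw [hbd'] at hnot
      have hfac : (n' * m') ^ (2 / 3 : ℝ) =
          (n * m) ^ (2 / 3 : ℝ) * ((n' / n) * (m' / m)) ^ (2 / 3 : ℝ) := by
        rw [← Real.mul_rpow (by positivity) (by positivity)]
        congr 1
        field_simp
      have hq0 : 0 ≤ ((n' / n) * (m' / m)) ^ (2 / 3 : ℝ) := by positivity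
      have c1 : M * (n' * m') ^ (2 / 3 : ℝ) ≤ I * ((n' / n) * (m' / m)) ^ (2 / 3 : ℝ) := by
        rw [hfac, ← mul_assoc]
        exact mul_le_mul_of_nonneg_right a1.le hq0
      have c2 : M * n' ≤ M * n := mul_le_mul_of_nonneg_left hn'n (by linarith)
      have c3 : M * m' ≤ M * m := mul_le_mul_of_nonneg_left hm'm (by linarith)
      calc (inc P'' F'' R : ℝ) ≤ M * ((n' * m') ^ (2 / 3 : ℝ) + n' + m') := hnot
        _ = M * (n' * m') ^ (2 / 3 : ℝ) + M * n' + M * m' := by ring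
        _ ≤ I * ((n' / n) * (m' / m)) ^ (2 / 3 : ℝ) + ε / 2 * I + ε / 2 * I := by linarith
        _ = I * (((n' / n) * (m' / m)) ^ (2 / 3 : ℝ) + ε) := by ring
  · change n ≤ ε * I
    have : n ≤ M * n := by nlinarith
    nlinarith

end Pool.Agent.Helper58.ZF
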